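import Pool.Agent.Helper27.RV.St

set_option autoImplicit false

open Cardinal Ordinal Set

universe u

namespace Pool.Agent.Helper13.RV

open Pool.Agent.Helper27.RV

theorem pKM (hDSM : StDSM.{u}) (hNUL : StNUL.{u}) (hKV : StKV.{u}) : StKM.{u} := by
  intro K al m L T D β J S r B s lam P hctx hL hJ hr hUnc hSP hD hβ hS hP hNCT ι hι E
  classical
  obtain ⟨hN1, hN2, hN3, hN4⟩ := hNUL T L J S r hJ
  -- the map `w`
  have hKK : #(K × K) = #K := by
    rw [Cardinal.mk_prod, Cardinal.lift_id, Cardinal.mul_eq_self hctx.aleph0_le]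
  obtain ⟨w0⟩ := Cardinal.eq.1 hKK
  let w : K → K × K := fun k => w0.symm k
  have hw : ∀ q : K × K, ∃ k, w k = q := fun q => ⟨w0 q, by simp [w]⟩
  let E' : ι → L → K → Ordinal.{u} := fun i l k => P l (E i l (w k).1) (w k).2
  let Y : ι → T → Set (L × ℕ) := fun i a => {p | p.1 ∈ B ∧ ∃ k, S a p.1 p.2 = E' i p.1 k}
  let Dd : ι → Set T := fun i => {a | Y i a ∉ Nul J S r a}
  -- cardinality of `L × ℕ`
  have hLN : #(L × ℕ) ≤ al := by
    have h1 : #(L × ℕ) = #L * ℵ₀ := by simp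
    rw [h1]
    calc #L * ℵ₀ ≤ al * al := mul_le_mul' hL hctx.inf
      _ = al := Cardinal.mul_eq_self hctx.inf
  have hDd : ∀ i, #(Dd i) ≤ #K := by
    intro i
    have h1 := hDSM (L × ℕ) T K (fun a p => S a p.1 p.2) r
      (fun a => {Z | Z ∩ {p : L × ℕ | p.1 ∈ B} ∈ Nul J S r a}) (fun p => E' i p.1) hr
      hctx.aleph0_le (hctx.powL hLN)
      ((Cardinal.power_le_power_left two_ne_zero hLN).trans hctx.two_le)
      (fun a Y1 Z1 h hZ => hN1 a _ _ (Set.inter_subset_inter_left _ h) hZ)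
      (fun a b h => hN1 a _ _ Set.inter_subset_left (hN2 a b h))
    refine (Cardinal.mk_le_mk_of_subset ?_).trans h1
    intro a ha hc
    apply ha
    refine hN1 a _ _ ?_ hc
    rintro p ⟨hp1, hp2⟩
    exact ⟨hp2, hp1⟩
  obtain ⟨uu, huu⟩ := hNCT ι Dd hι hDd
  -- the map `θ`
  have hββ : #(β × ℕ) = #β := by
    have h1 : #(β × ℕ) = #β * ℵ₀ := by simp
    rw [h1]
    exact Cardinal.mul_aleph0_eq hβ
  obtain ⟨θ⟩ := Cardinal.eq.1 hββ
  have hDne : Nonempty D := by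
    rw [← Cardinal.mk_ne_zero_iff]
    intro h0
    rw [h0] at hD
    have h2 : (0 : Cardinal.{u}) < ℵ_ 1 := Cardinal.aleph0_pos.trans_le (Cardinal.aleph0_le_aleph 1)
    exact absurd (h2.trans_le hD) (lt_irrefl _)
  have hg : ∀ l : L, ∃ (g : D → Ordinal.{u}) (v : β → ℕ → D), l ∈ B →
      (∀ d, g d < lam l) ∧ ∀ e n, ∃ k, S (uu e) l n = P l (g (v e n)) k := by
    intro l
    by_cases hl : l ∈ B
    · obtain ⟨g, hg1, hg2⟩ := hP l hl (fun e => S (uu (θ.symm e).1) l (θ.symm e).2)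
        (fun e => hS l hl _ _)
      choose d hd using hg2
      refine ⟨g, fun e n => d (θ (e, n)), fun _ => ⟨hg1, fun e n => ?_⟩⟩
      obtain ⟨k, hk⟩ := hd (θ (e, n))
      refine ⟨k, ?_⟩
      simpa using hk
    · obtain ⟨d0⟩ := hDne
      exact ⟨fun _ => 0, fun _ _ => d0, fun h => absurd h hl⟩
  choose g v hgv using hg
  obtain ⟨V, hV⟩ := hKV L D β T ι Dd uu (fun e l n => v l e n) hSP
    ((Cardinal.aleph0_le_aleph 1).trans hD) huu
  refine ⟨fun l n => g l (V l n), fun l hl n => (hgv l hl).1 _, ?_⟩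
  rintro Z hZ ⟨I, hI, hI2⟩
  obtain ⟨e, he1, he2⟩ := hV I (hI.trans hD)
  have hYN : ∀ i : I, Y i.1 (uu e) ∈ Nul J S r (uu e) := by
    intro i
    have h1 := he1 i.1 i.2
    by_contra hc
    exact h1 hc
  have hUn := hN3 (uu e) I (fun i => Y i.1 (uu e)) hI hYN
  refine hN4 hUnc (uu e) Z (hN1 (uu e) _ _ ?_ hUn)
  rintro ⟨l, n⟩ hl
  have hl' : l ∈ Z := hl
  obtain ⟨k2, hk2⟩ := (hgv l (hZ hl')).2 e n
  obtain ⟨n', hn'⟩ := he2 l n
  obtain ⟨i, hi, k1, hk1⟩ := hI2 l hl' n'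
  obtain ⟨k, hk⟩ := hw (k1, k2)
  rw [Set.mem_iUnion]
  refine ⟨⟨i, hi⟩, hZ hl', k, ?_⟩
  show S (uu e) l n = P l (E i l (w k).1) (w k).2
  have hn2 : v l e n = V l n' := hn'
  have hk3 : g l (V l n') = E i l k1 := hk1
  rw [hk, hk2, hn2, hk3]

end Pool.Agent.Helper13.RV
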