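import Pool.Agent.Helper27.RV.StL

/-!
# Project RV (MP_60edf5), module LQ
-/

set_option autoImplicit false

open Cardinal Ordinal Set Filter

universe u

namespace Pool.Agent.Helper13.RV

open Pool.Agent.Helper27.RV Pool.Agent.Helper65.GS Pool.Agent.Helper36.VC

theorem pLQ (h1 : StWY.{u}) (h2 : StKNU.{u}) : StLQ.{u} := by
  intro X κ W A t l f hSit K β ι δ th s S P hβ hβκ hδ hδκ hth hst hS hKN hs hP y hy
  obtain ⟨w, hw, hw2⟩ := h1 κ W A t l f hSit β th s S hβκ hth hst hS hs y hy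
  obtain ⟨-, hU, -⟩ := h2 β δ S hδ
  -- a bijection between `β` and `β × ℕ`
  have hcard : #β = #(β × ULift.{u} ℕ) := by
    rw [Cardinal.mk_prod, Cardinal.lift_id, Cardinal.lift_id, Cardinal.mk_uLift, Cardinal.mk_nat,
      Cardinal.lift_aleph0, Cardinal.mul_aleph0_eq hβ]
  obtain ⟨φ⟩ := Cardinal.eq.1 hcard
  obtain ⟨I, hI, hI2⟩ := hP (fun e => w (φ e).1 (φ e).2.down) (fun e => hw _ _)
  have hI3 : ∀ e n, ∃ i ∈ I, ∃ k, w e n = P i k := by
    intro e n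
    obtain ⟨i, hi, k, hk⟩ := hI2 (φ.symm (e, ⟨n⟩))
    refine ⟨i, hi, k, ?_⟩
    rw [← hk]
    simp
  have := hSit.compl
  have hpos : Pos W {x ∈ A | f y x < t ∧ ∀ e, ∃ n, S (f y x) e = f (w e n) x} :=
    hSit.pos.ae (((hSit.rep.bd y hy).and hw2).mono fun x hx hxA => ⟨hx.1 hxA, hx.2 hxA⟩)
  obtain ⟨i, hi⟩ := hpos.exists_of_cover (κ := κ) (ι := I) (hI.trans_lt hδκ)
    (fun i => {x | {e | ∃ k, S (f y x) e = f (P i k) x} ∉ KN δ S (f y x)}) (by
      rintro x ⟨hxA, hxt, hx⟩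
      by_contra hcon
      simp only [mem_iUnion, mem_ofPred_eq, not_exists, not_not] at hcon
      have h3 := hU (f y x) I (fun i => {e | ∃ k, S (f y x) e = f (P i k) x}) hI hcon
      apply hKN (f y x) hxt
      have h4 : (⋃ i : I, {e | ∃ k, S (f y x) e = f (P i k) x}) = (univ : Set β) := by
        apply eq_univ_of_forall
        intro e
        obtain ⟨n, hn⟩ := hx e
        obtain ⟨i, hi, k, hk⟩ := hI3 e n
        exact mem_iUnion.2 ⟨⟨i, hi⟩, k, by rw [hn, hk]⟩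
      rwa [h4] at h3)
  exact ⟨i, hi.mono fun x hx => ⟨hx.1.1, hx.2⟩⟩

end Pool.Agent.Helper13.RV
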